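import Pool.Agent.H56.G3.TI

/-!
# Theorem (G), MP_c59857_nt, section 3b, row EW: the windows of `t` and of `t - l p`
-/

set_option autoImplicit false

namespace Pool.Agent.H63.G3

open Finset Pool.Agent.H6.N4D Pool.Agent.H93.EB Pool.Agent.H93.GS Pool.Agent.H56.G3

theorem pf_EW (hSIZ : T_SIZ) (_hSN : T_SN) : T_EW := by
  intro K r hK
  obtain ⟨X₁, hX₁⟩ := hSIZ
  refine ⟨X₁, ?_⟩
  intro S k₁ t p hS hX ht ht' hp
  have hok := hS.ok
  obtain ⟨hL, hP, -, hr100, -, -, -, -, hI, hlp, -, -, -⟩ := hX₁ S hok hX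
  have hP0 : 0 < S.P := by linarith
  have h1 := (mem_Pr (by positivity)).1 hp
  have hpr : p.Prime := h1.2.2
  have hp2 : (2 : ℝ) ≤ p := by exact_mod_cast hpr.two_le
  have hp0 : (0 : ℝ) < p := by linarith
  obtain ⟨hxt, hxX, hn1, hn2⟩ := hI t ht
  obtain ⟨-, -, hn1', hn2'⟩ := hI _ ht'
  unfold Nt
  set n := S.n t with hn
  set n' := S.n (t - S.l p) with hn'
  set x := S.x t with hx
  set x' := S.x (t - S.l p) with hx'
  set ρ := S.rho with hρ
  have hρ0 : 0 < ρ := hok.hr0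
  have hx0 : 0 < x := Par.x_pos t
  -- the locations
  have hloc : |p * x' - x| ≤ 1 := by
    have h1 : x' = x * Real.exp (-(S.h * (S.l p : ℤ))) := Par.x_sub t _
    have h2 := hlp p hpr.one_le
    have h3 : (p : ℝ) = Real.exp (Real.log p) := (Real.exp_log hp0).symm
    have h4 : p * x' = x * Real.exp (Real.log p - S.h * S.l p) := by
      rw [h1, sub_eq_add_neg, Real.exp_add, ← h3]
      ring
    have hhX : S.h * S.X ≤ 1 := by
      have h5 := hok.hX5
      have h6 : S.X ≤ S.X ^ 5 := le_self_pow₀ hok.hX (by norm_num)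
      exact (mul_le_mul_of_nonneg_left h6 hok.hh.le).trans h5
    have hh1 : S.h ≤ 1 := (le_mul_of_one_le_right hok.hh.le hok.hX).trans hhX
    have h5 : |Real.log p - S.h * S.l p| ≤ S.h / 2 := by
      rw [abs_sub_comm]
      exact h2
    have h6 := Real.abs_exp_sub_one_le (x := Real.log p - S.h * S.l p) (by linarith)
    have h7 : p * x' - x = x * (Real.exp (Real.log p - S.h * S.l p) - 1) := by
      rw [h4]
      ring
    rw [h7, abs_mul, abs_of_pos hx0]
    calc x * |Real.exp (Real.log p - S.h * S.l p) - 1| ≤ x * (2 * (S.h / 2)) :=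
          mul_le_mul_of_nonneg_left (h6.trans (by linarith)) hx0.le
      _ = S.h * x := by ring
      _ ≤ S.h * S.X := mul_le_mul_of_nonneg_left hxX hok.hh.le
      _ ≤ 1 := hhX
  obtain ⟨hloc1, hloc2⟩ := abs_le.1 hloc
  have hc1 : (p : ℝ) * n' ≤ n + 2 := by
    have h1 := mul_le_mul_of_nonneg_left hn2' hp0.le
    linarith
  have hc2 : (n : ℝ) ≤ p * n' + p + 2 := by
    have h1 : (p : ℝ) * x' ≤ p * (n' + 1) := mul_le_mul_of_nonneg_left (by linarith) hp0.le
    linarith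
  have hn0 : (0 : ℝ) ≤ n := Nat.cast_nonneg _
  have hn0' : (0 : ℝ) ≤ n' := Nat.cast_nonneg _
  set Y := ⌊ρ * n⌋₊ with hY
  set N := ⌊ρ * n'⌋₊ with hN
  have hY1 : ρ * n < Y + 1 := Nat.lt_floor_add_one _
  have hY2 : (Y : ℝ) ≤ ρ * n := Nat.floor_le (by positivity)
  have hN1 : ρ * n' < N + 1 := Nat.lt_floor_add_one _
  have hN2 : (N : ℝ) ≤ ρ * n' := Nat.floor_le (by positivity)
  refine ⟨?_, ?_⟩
  · rw [abs_le]
    constructor <;> linarith
  · rw [abs_le]
    constructor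
    · have h1 : ρ * n ≤ ρ * (p * n' + p + 2) := mul_le_mul_of_nonneg_left hc2 hρ0.le
      have h2 : p * (ρ * n') ≤ p * (N + 1) := mul_le_mul_of_nonneg_left hN1.le hp0.le
      have h3 : ρ * p ≤ 1 / 100 * p := mul_le_mul_of_nonneg_right hr100 hp0.le
      nlinarith
    · have h1 : (p : ℝ) * N ≤ ρ * (p * n') := by
        have := mul_le_mul_of_nonneg_left hN2 hp0.le
        linarith
      have h2 : ρ * (p * n') ≤ ρ * (n + 2) := mul_le_mul_of_nonneg_left hc1 hρ0.le
      linarith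

end Pool.Agent.H63.G3
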