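import Pool.Agent.H63.G3.FLCS

/-!
# Theorem (G), MP_c59857_nt, section 3a, group F, row PHS: the phases under small shifts
-/

set_option autoImplicit false

namespace Pool.Agent.H63.G3

open Finset Pool.Agent.H6.N4D Pool.Agent.H78.GS

/-- the numerical part: the difference quotient and the logarithm -/
theorem phs_num (ρ x n D e₁ T : ℝ) (hρ0 : 0 < ρ) (hρ : ρ ≤ 1 / 100) (hρx : 100 ≤ ρ * x)
    (hn1 : x - 1 < n) (hn2 : n ≤ x) (hD0 : 0 ≤ D) (hD : D ≤ 2 * ρ ^ 2 * x + 1) (he : 0 < e₁)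
    (hT : |T| ≤ e₁ / ρ ^ 2) : |T / x * D - T * Real.log ((n + D) / n)| ≤ e₁ / 10 := by
  have hx0 : 0 < x := by
    by_contra h
    push Not at h
    nlinarith
  have hx1 : 10000 ≤ x := by nlinarith
  have hn0 : 0 < n := by linarith
  have hn3 : x / 2 ≤ n := by linarith
  have hu0 : 0 ≤ D / n := div_nonneg hD0 hn0.le
  have h1 : (n + D) / n = 1 + D / n := by
    field_simp
  have hlog1 : Real.log (1 + D / n) ≤ D / n := by
    have := Real.log_le_sub_one_of_pos (show (0 : ℝ) < 1 + D / n by linarith)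
    linarith
  have hlog2 : D / n - (D / n) ^ 2 ≤ Real.log (1 + D / n) := by
    have h2 := Real.one_sub_inv_le_log_of_pos (show (0 : ℝ) < 1 + D / n by linarith)
    have h3 : D / n - (D / n) ^ 2 ≤ 1 - (1 + D / n)⁻¹ := by
      have h4 : 1 - (1 + D / n)⁻¹ = (D / n) / (1 + D / n) := by
        field_simp
        ring
      rw [h4, le_div_iff₀ (by linarith)]
      nlinarith [mul_nonneg hu0 (mul_nonneg hu0 hu0)]
    linarith
  have hDx : D / n ≤ 2 * D / x := by
    rw [div_le_div_iff₀ hn0 hx0]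
    nlinarith
  have hdx : |D / x - D / n| ≤ 2 * D / x ^ 2 := by
    have h2 : D / x - D / n = -(D * (x - n) / (x * n)) := by
      field_simp
      ring
    rw [h2, abs_neg, abs_of_nonneg (by
      apply div_nonneg (mul_nonneg hD0 (by linarith)) (by positivity))]
    rw [div_le_div_iff₀ (by positivity) (by positivity)]
    have h3 : D * (x - n) ≤ D * 1 := mul_le_mul_of_nonneg_left (by linarith) hD0
    have h4 : x ^ 2 ≤ 2 * (x * n) := by nlinarith
    calc D * (x - n) * x ^ 2 ≤ D * 1 * (2 * (x * n)) :=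
          mul_le_mul h3 h4 (by positivity) (by linarith)
      _ = 2 * D * (x * n) := by ring
  have hlg : |D / n - Real.log (1 + D / n)| ≤ (2 * D / x) ^ 2 := by
    rw [abs_of_nonneg (by linarith)]
    have h2 : (D / n) ^ 2 ≤ (2 * D / x) ^ 2 := pow_le_pow_left₀ hu0 hDx 2
    linarith
  have hE : T / x * D - T * Real.log ((n + D) / n) =
      T * ((D / x - D / n) + (D / n - Real.log (1 + D / n))) := by
    rw [h1]
    ring
  rw [hE, abs_mul]
  have hs : |(D / x - D / n) + (D / n - Real.log (1 + D / n))| ≤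
      2 * D / x ^ 2 + (2 * D / x) ^ 2 := (abs_add_le _ _).trans (add_le_add hdx hlg)
  have hs2 : 2 * D / x ^ 2 + (2 * D / x) ^ 2 = (2 * D + 4 * D ^ 2) / x ^ 2 := by
    field_simp
    ring
  rw [hs2] at hs
  have hD2 : 2 * D + 4 * D ^ 2 ≤ 40 * ρ ^ 4 * x ^ 2 + 40 := by
    have h3 : D ^ 2 ≤ (2 * ρ ^ 2 * x + 1) ^ 2 := pow_le_pow_left₀ hD0 hD 2
    have h4 : 0 ≤ ρ ^ 2 * x := by positivity
    nlinarith [sq_nonneg (ρ ^ 2 * x - 1)]
  calc |T| * |(D / x - D / n) + (D / n - Real.log (1 + D / n))| ≤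
        (e₁ / ρ ^ 2) * ((40 * ρ ^ 4 * x ^ 2 + 40) / x ^ 2) := by
          apply mul_le_mul hT _ (abs_nonneg _) (by positivity)
          exact hs.trans (div_le_div_of_nonneg_right hD2 (by positivity))
    _ = e₁ * (40 * ρ ^ 2 + 40 / (ρ * x) ^ 2) := by
          field_simp
    _ ≤ e₁ * (1 / 10) := by
          apply mul_le_mul_of_nonneg_left _ he.le
          have h3 : ρ ^ 2 ≤ 1 / 10000 := by nlinarith
          have h4 : (10000 : ℝ) ≤ (ρ * x) ^ 2 := by nlinarith
          have h5 : 40 / (ρ * x) ^ 2 ≤ 40 / 10000 :=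
            div_le_div_of_nonneg_left (by norm_num) (by norm_num) h4
          linarith
    _ = e₁ / 10 := by ring

theorem pf_PHS (hSIZ : T_SIZ) : T_PHS := by
  intro K ζ hK hζ
  obtain ⟨X₁, hX₁⟩ := hSIZ
  refine ⟨X₁, ?_⟩
  intro S e₀ e₁ ν T θ φ w b a t j i hok hSK hX he0 he0' he1 he1' he1'' hν0 hν1 hT ht ht' hw hb
    hRS hAt
  obtain ⟨-, hP, -, hr, -, -, hV, -, hI, -⟩ := hX₁ S hok hX
  obtain ⟨g1, g2, g3, g4, g5, -⟩ := shf_size S hok hr hV t w hw
  obtain ⟨hxt, -, hn1, hn2⟩ := hI t ht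
  obtain ⟨-, -, hn1', hn2'⟩ := hI _ ht'
  obtain ⟨-, hR2⟩ := hRS
  unfold At fh at hAt
  unfold ps
  have hr0 := hok.hr0
  have hx0 : 0 < S.x t := Par.x_pos t
  have hx0' : 0 < S.x (t + w) := Par.x_pos _
  have hρx : 100 ≤ S.rho * S.x t := by
    refine hP.trans (le_trans ?_ hxt)
    apply le_self_pow₀ (by linarith)
    have := hok.hK
    omega
  set ρ := S.rho with hρ
  set x := S.x t with hx
  set x' := S.x (t + w) with hx'
  set n := S.n t with hn
  set n' := S.n (t + w) with hn'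
  have hρx0 : 0 < ρ * x := by linarith
  have hmono : n ≤ n' := by
    rw [hn, hn']
    exact Nat.floor_le_floor g4
  obtain ⟨d, hd⟩ := Nat.exists_eq_add_of_le hmono
  have hdR : (n' : ℝ) = n + d := by rw [hd]; push_cast; ring
  have hD : (d : ℝ) ≤ 2 * ρ ^ 2 * x + 1 := by
    have h1 : (d : ℝ) = n' - n := by rw [hdR]; ring
    rw [h1]
    nlinarith
  have hx1 : 10000 ≤ x := by nlinarith
  have hn0 : (0 : ℝ) < n := by linarith
  obtain ⟨k, hk⟩ := exists_int (θ t j - T / x - (a : ℝ) / b)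
  set δ := θ t j - T / x - (a : ℝ) / b - k with hδ
  have hδ1 : |δ| ≤ ν * e₁ / (ρ * x) := by rw [hk]; exact hAt
  have hlog : Real.log n' - Real.log n = Real.log ((n + d) / n) := by
    rw [hdR, Real.log_div (by positivity) (by positivity)]
  have e1 : φ (t + w) i - (a : ℝ) / b * n' - T * Real.log n' + T * (S.h * ((t + w : ℤ) : ℝ)) -
      (φ t j - (a : ℝ) / b * n - T * Real.log n + T * (S.h * t)) =
      (φ (t + w) i - (φ t j + θ t j * ((n' : ℝ) - n))) +
      ((δ * d + ((T / x * d - T * Real.log ((n + d) / n)) + T * (S.h * w))) +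
        ((k * (d : ℤ) : ℤ) : ℝ)) := by
    rw [← hlog, hδ, hdR]
    push_cast
    ring
  rw [e1]
  have h1 := nd_add_le (φ (t + w) i - (φ t j + θ t j * ((n' : ℝ) - n)))
    ((δ * d + ((T / x * d - T * Real.log ((n + d) / n)) + T * (S.h * w))) +
        ((k * (d : ℤ) : ℤ) : ℝ))
  rw [nd_add_int] at h1
  have h2 := nd_le_abs (δ * d + ((T / x * d - T * Real.log ((n + d) / n)) + T * (S.h * w)))
  have h3 : |δ * d| ≤ e₁ / 10 := by
    rw [abs_mul, abs_of_nonneg (Nat.cast_nonneg d : (0 : ℝ) ≤ d)]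
    calc |δ| * d ≤ (ν * e₁ / (ρ * x)) * (2 * ρ ^ 2 * x + 1) :=
          mul_le_mul hδ1 hD (Nat.cast_nonneg d) (by positivity)
      _ = e₁ * (ν * (2 * ρ + 1 / (ρ * x))) := by
          field_simp
      _ ≤ e₁ * (1 * (2 * (1 / 100) + 1 / 100)) := by
          apply mul_le_mul_of_nonneg_left _ he1.le
          apply mul_le_mul hν1 _ (by positivity) (by norm_num)
          have h4 : 1 / (ρ * x) ≤ 1 / 100 := one_div_le_one_div_of_le (by norm_num) hρx
          linarith
      _ ≤ e₁ / 10 := by linarith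
  have h4 := phs_num ρ x n d e₁ T hr0 hr hρx hn1 hn2 (Nat.cast_nonneg d) hD he1 hT
  have h5 : |T * (S.h * w)| ≤ e₁ := by
    rw [abs_mul, abs_of_nonneg g1]
    calc |T| * (S.h * w) ≤ (e₁ / ρ ^ 2) * ρ ^ 2 := mul_le_mul hT g2 g1 (by positivity)
      _ = e₁ := by
          field_simp
  have h6 : |δ * d + ((T / x * d - T * Real.log ((n + d) / n)) + T * (S.h * w))| ≤
      e₁ / 10 + (e₁ / 10 + e₁) := by
    refine (abs_add_le _ _).trans (add_le_add h3 ?_)
    exact (abs_add_le _ _).trans (add_le_add h4 h5)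
  linarith

end Pool.Agent.H63.G3
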